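import Pool.Agent.Q28.HJ.Main

/-!
# Hartshorne's conjecture on the Chow groups of hypersurfaces: reductions

Hartshorne's conjecture says that `A^i(X) = ℚ h^i` for all smooth complex hypersurfaces `X` and all
`i < dim X / 2`. We prove that it is enough to know the *one* codimension `i = (dim X - 1) / 2` just
below the middle, for hypersurfaces of odd dimension, of arbitrarily large dimensions and of
arbitrarily divisible degrees only, with equation

  `f(x_0, …, x_(a+1)) + y_1^d + y_2^d + … + y_(2k)^d = 0`, `a ≤ ω(dim)`,

where `ω` is any function which tends to infinity, however slowly (so almost all the variables are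
diagonal variables); and that the conjecture then extends to all products of hypersurfaces: for
smooth hypersurfaces `X_1, …, X_r` of any dimensions `n_j` and degrees, the tensor product of the
primitive motives has `A^i(M_1 ⊗ ⋯ ⊗ M_r) = 0` for all `i < (n_1 + ⋯ + n_r) / 2` (for products of
curves: the vanishing conjectured by Beauville).
-/

open CategoryTheory MonoidalCategory

universe v u w

namespace Pool.Agent.Results.MP_4be043_ag.AlmostDiagonalMiddle

open Pool.Agent.Q28.HJ

/-- **Reduction of Hartshorne's conjecture to the middle codimension of almost diagonal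
hypersurfaces.** Let `T` be the Chow motives, Chow groups and hyperplane sections of the complex
hypersurfaces (`hT`: known facts). Let `S` be a set of pairs `(n, d)` which contains, for all `N` and
`D`, a pair with `n ≥ N` odd and `D ∣ d`, and let `ω : ℕ → ℕ` be a function which tends to infinity.
The following statements are equivalent.

1. `A^i(W) = ℚ h^i`, `i = (dim W - 1) / 2`, for all the `W` with `(dim W, deg W) ∈ S` which are
  iterated suspensions of smooth hypersurfaces `X` with `dim X ≤ ω (dim W)`.
2. Hartshorne's conjecture: `A^i(X) = ℚ h^i` for all smooth hypersurfaces `X` and `i < dim X / 2`.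
3. `A^i(M_1 ⊗ ⋯ ⊗ M_r) = Hom(L^i, M_1 ⊗ ⋯ ⊗ M_r) = 0` for the primitive motives `M_j` of all smooth
  hypersurfaces `X_1, …, X_r` (of any dimensions and degrees), and all `i < (∑ dim X_j) / 2`. -/
theorem result {𝓜 : Type u} [Category.{v} 𝓜] [Preadditive 𝓜] [MonoidalCategory 𝓜]
    [BraidedCategory 𝓜] [MonoidalPreadditive 𝓜] {T : HypData.{v, u, w} 𝓜} (hT : T.Facts)
    (S : Set (ℕ × ℕ)) (hS : Cofinal S) (ω : ℕ → ℕ)
    (hω : Filter.Tendsto ω Filter.atTop Filter.atTop) :
    [∀ X W : T.Hyp, T.Smooth X → Relation.ReflTransGen T.Susp X W →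
        (T.dim W, T.deg W) ∈ S → T.dim X ≤ ω (T.dim W) →
          ∀ i, 2 * i + 1 = T.dim W → T.Hartshorne W i,
      ∀ X : T.Hyp, T.Smooth X → ∀ i, 2 * i < T.dim X → T.Hartshorne X i,
      ∀ (N : ℕ) (M : 𝓜), T.IsProd N M → ∀ i, 2 * i < N →
        ∀ f : pow T.L i ⟶ M, f = 0].TFAE :=
  final hT S hS ω hω

end Pool.Agent.Results.MP_4be043_ag.AlmostDiagonalMiddle
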