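import Pool.Agent.Q28.HJ.Few

/-!
# Hartshorne's conjecture for sums of forms in few variables

Fix a degree `d ≥ 2` and a set `B` of smooth hypersurfaces `f = 0` of degree `d` (called blocks),
containing the points `u^d + v^d = 0`, for instance all those in at most `k` variables (`k ≥ 2`), or
only `u^d + v^d = 0`. We consider the smooth hypersurfaces

  `W : f_1(x^(1)) + f_2(x^(2)) + ⋯ + f_r(x^(r)) = 0`, `r ≥ 1` arbitrary,

where `f_j` (or `f_j + u^d`) is the equation of a block, in disjoint sets of variables. Their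
dimensions are not bounded. Hartshorne's conjecture for all these `W` is equivalent to a statement on
products of hypersurfaces of small dimension: `A^i(M_1 ⊗ ⋯ ⊗ M_r) = 0`, `i < (n_1 + ⋯ + n_r) / 2`,
for the primitive motives `M_j` of the hypersurfaces `f_j = 0` and `f_j = u^d`, of dimension `n_j`.
If the blocks are binary forms, it is equivalent to the vanishing

  `A^i(h^1(C_1) ⊗ ⋯ ⊗ h^1(C_(2i+1))) = 0` for all `i` and all the curves `C_j : u^d = f_j(x, y)`,

(the case `s = -1` of the vanishing `A^i_(s) = 0`, `s < 0`, conjectured by Beauville for the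
Jacobians of these curves) and to the case of the codimension `(dim W - 1) / 2` of Hartshorne's
conjecture. For the blocks `u^d + v^d` the `W` are the Fermat hypersurfaces of degree `d`, and the
curve is the Fermat curve.
-/

open CategoryTheory MonoidalCategory

universe v u w

namespace Pool.Agent.Results.MP_4be043_ag.SumsOfForms

open Pool.Agent.Q28.HJ Pool.Agent.Q28.HJ.JoinData

/-- **Hartshorne's conjecture for sums of forms in few variables.** Let `T` be the Chow motives and
Chow groups of complex hypersurfaces (`hT`: known facts), `d ≥ 2`, and `B` a set of smooth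
hypersurfaces of degree `d` which contains `u^d + v^d = 0`.

* `A^i(W) = ℚ h^i` for all sums `W` of blocks (hypersurfaces `f = 0` in `B` and `f = u^d`) and all
  `i < dim W / 2` if and only if `A^i(M_1 ⊗ ⋯ ⊗ M_r) = 0` for all products of primitive motives of
  blocks and `i < (∑ dim) / 2`.
* If `dim X = 0` for all `X ∈ B` (binary forms), these statements are equivalent to
  `A^i(W) = ℚ h^i` for the sums `W` of odd dimension and `i = (dim W - 1) / 2`, and to
  `A^i(h^1(C_1) ⊗ ⋯ ⊗ h^1(C_(2i+1))) = 0` for all `i` and all blocks `C_j` of dimension one. -/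
theorem result {𝓜 : Type u} [Category.{v} 𝓜] [Preadditive 𝓜] [MonoidalCategory 𝓜]
    [BraidedCategory 𝓜] [MonoidalPreadditive 𝓜] {T : JoinData.{v, u, w} 𝓜} (hT : T.JoinFacts)
    (d : ℕ) (hd : 2 ≤ d) (B : Set T.Hyp) (hB : ∀ X ∈ B, T.Smooth X ∧ T.deg X = d)
    (hP : ∀ P, T.Diag P → T.deg P = d → P ∈ B) :
    ((∀ W, T.SumOf (T.blocks B) W → ∀ i, 2 * i < T.dim W → T.Hartshorne W i) ↔
      T.ProductVanishing (T.blocks B)) ∧
    ((∀ X ∈ B, T.dim X = 0) →
      [∀ W, T.SumOf (T.blocks B) W → ∀ i, 2 * i < T.dim W → T.Hartshorne W i,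
        ∀ W, T.SumOf (T.blocks B) W → ∀ i, 2 * i + 1 = T.dim W → T.Hartshorne W i,
        T.ProductVanishing (T.blocks B),
        ∀ (i : ℕ) (M : 𝓜), T.ProdOf {X ∈ T.blocks B | T.dim X = 1} (2 * i + 1) M →
          ∀ f : pow T.L i ⟶ M, f = 0].TFAE) :=
  ⟨few_main hT hd hB hP, few_two hT hd hB hP⟩

end Pool.Agent.Results.MP_4be043_ag.SumsOfForms
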